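import Mathlib
import Pool.Agent.H24.RD.Targets

set_option autoImplicit false

/-!
# Module LVB: basic facts on the level fields
-/

namespace Pool.Agent.H68.RD

open NumberField Height Finset Pool.Agent.H24.RD

/-- the generators of the level field -/
def GS (F Ω : Type) [Field F] [Field Ω] [Algebra F Ω] {r : ℕ} (γ : Fin r → F) (N K : ℕ) : Set Ω :=
  {z : Ω | z ^ N = 1 ∨ ∃ i, z ^ K = algebraMap F Ω (γ i)}

theorem pow_fin (Ω : Type) [Field Ω] (n : ℕ) (hn : 0 < n) (a : Ω) : {z : Ω | z ^ n = a}.Finite := by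
  have h : {z : Ω | z ^ n = a} ⊆ {z | (Polynomial.X ^ n - Polynomial.C a).IsRoot z} := by
    intro z hz
    have hz' : z ^ n = a := hz
    change (Polynomial.X ^ n - Polynomial.C a).IsRoot z
    rw [Polynomial.IsRoot.def]
    simp [hz']
  exact (Polynomial.finite_setOfPred_isRoot (Polynomial.X_pow_sub_C_ne_zero hn a)).subset h

theorem gs_fin {F Ω : Type} [Field F] [Field Ω] [Algebra F Ω] {r : ℕ} (γ : Fin r → F) {N K : ℕ}
    (hN : 0 < N) (hK : 0 < K) : (GS F Ω γ N K).Finite := by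
  have h : GS F Ω γ N K ⊆ {z : Ω | z ^ N = 1} ∪ ⋃ i, {z : Ω | z ^ K = algebraMap F Ω (γ i)} := by
    intro z hz
    rcases hz with h | ⟨i, h⟩
    · exact Or.inl h
    · exact Or.inr (Set.mem_iUnion.2 ⟨i, h⟩)
  exact ((pow_fin Ω N hN 1).union (Set.finite_iUnion fun i => pow_fin Ω K hK _)).subset h

theorem pf_LVB : T_LVB := by
  intro F Ω _ _ _ _ _ _ r γ hγ N K hN hK
  have hch : CharZero Ω := charZero_of_injective_algebraMap (algebraMap F Ω).injective
  have hL : Lv F Ω γ N K = IntermediateField.adjoin F (GS F Ω γ N K) := rfl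
  have hfd : FiniteDimensional F (Lv F Ω γ N K) := by
    rw [hL]
    have : Finite (GS F Ω γ N K) := (gs_fin γ hN hK).to_subtype
    exact IntermediateField.finiteDimensional_adjoin fun x _ => Algebra.IsIntegral.isIntegral x
  have : IsAlgClosure F Ω := ⟨inferInstance, inferInstance⟩
  have hnorm : Normal F Ω := IsAlgClosure.normal F Ω
  have hnor : Normal F (Lv F Ω γ N K) := by
    rw [IntermediateField.normal_iff_forall_map_le']
    intro σ
    rw [hL, IntermediateField.adjoin_map]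
    refine IntermediateField.adjoin.mono _ _ _ ?_
    rintro _ ⟨z, hz, rfl⟩
    rcases hz with h | ⟨i, h⟩
    · left
      change (σ z) ^ N = 1
      rw [← map_pow, h, map_one]
    · right
      refine ⟨i, ?_⟩
      change (σ z) ^ K = _
      rw [← map_pow, h, AlgEquiv.commutes]
  have hmem : ∀ z : Ω, z ∈ GS F Ω γ N K → z ∈ Lv F Ω γ N K := fun z hz =>
    IntermediateField.subset_adjoin F _ hz
  refine ⟨hfd, ⟨⟩, ?_, ?_, ?_, ?_⟩
  · have : NeZero (N : Ω) := ⟨by exact_mod_cast hN.ne'⟩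
    obtain ⟨ζ, hζ⟩ := HasEnoughRootsOfUnity.exists_primitiveRoot Ω N
    refine ⟨⟨ζ, hmem ζ (Or.inl hζ.pow_eq_one)⟩, ?_⟩
    exact IsPrimitiveRoot.of_map_of_injective (f := (Lv F Ω γ N K).val) hζ (Lv F Ω γ N K).val.injective
  · intro i
    obtain ⟨θ, hθ⟩ := IsAlgClosed.exists_pow_nat_eq (algebraMap F Ω (γ i)) hK
    refine ⟨⟨θ, hmem θ (Or.inr ⟨i, hθ⟩)⟩, ?_⟩
    apply Subtype.ext
    exact hθ
  · apply IntermediateField.lift_injective
    rw [IntermediateField.lift_adjoin, IntermediateField.lift_top]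
    conv_rhs => rw [hL]
    congr 1
    ext z
    constructor
    · rintro ⟨w, hw, rfl⟩
      rcases hw with h | ⟨i, h⟩
      · left
        have := congrArg (Subtype.val) h
        exact this
      · right
        refine ⟨i, ?_⟩
        have := congrArg (Subtype.val) h
        exact this
    · intro hz
      refine ⟨⟨z, hmem z hz⟩, ?_, rfl⟩
      rcases hz with h | ⟨i, h⟩
      · left
        apply Subtype.ext
        exact h
      · right
        refine ⟨i, ?_⟩
        apply Subtype.ext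
        exact h
  · intro N₁ K₁ hNN hKK hKN hN1
    rw [hL, IntermediateField.adjoin_le_iff]
    have hmem1 : ∀ z : Ω, z ∈ GS F Ω γ N₁ K₁ → z ∈ Lv F Ω γ N₁ K₁ := fun z hz =>
      IntermediateField.subset_adjoin F _ hz
    intro z hz
    change z ∈ Lv F Ω γ N₁ K₁
    have hroot : ∀ (w : Ω) (k : ℕ), k ∣ N₁ → w ^ k = 1 → w ∈ Lv F Ω γ N₁ K₁ := by
      rintro w k ⟨c, hc⟩ hw
      refine hmem1 w (Or.inl ?_)
      rw [hc, pow_mul, hw, one_pow]
    rcases hz with h | ⟨i, h⟩
    · exact hroot z N hNN h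
    · have hK1 : 0 < K₁ := Nat.pos_of_dvd_of_pos hKN hN1
      obtain ⟨y, hy⟩ := IsAlgClosed.exists_pow_nat_eq (algebraMap F Ω (γ i)) hK1
      obtain ⟨c, hc⟩ := hKK
      have hγ0 : algebraMap F Ω (γ i) ≠ 0 := (map_ne_zero _).2 (hγ i)
      have hy0 : y ≠ 0 := by
        rintro rfl
        rw [zero_pow hK1.ne'] at hy
        exact hγ0 hy.symm
      have hyL : y ∈ Lv F Ω γ N₁ K₁ := hmem1 y (Or.inr ⟨i, hy⟩)
      have hq : (z * (y ^ c)⁻¹) ^ K = 1 := by
        rw [mul_pow, h, inv_pow, ← pow_mul, mul_comm c K, ← hc, hy, mul_inv_cancel₀ hγ0]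
      have hqL : z * (y ^ c)⁻¹ ∈ Lv F Ω γ N₁ K₁ := by
        refine hroot _ K ((Dvd.intro c hc.symm).trans hKN) hq
      have hz' : z = (z * (y ^ c)⁻¹) * y ^ c := by
        rw [mul_assoc, inv_mul_cancel₀ (pow_ne_zero _ hy0), mul_one]
      rw [hz']
      exact (Lv F Ω γ N₁ K₁).mul_mem hqL (pow_mem hyL c)

end Pool.Agent.H68.RD
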