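import Mathlib
import Pool.Agent.H24.RD.Targets

set_option autoImplicit false

/-!
# Module ADP: generators adapted to a place
-/

namespace Pool.Agent.H68.RD

open NumberField Height Finset Pool.Agent.H24.RD

/-- the values of a finite place are powers of a real number -/
theorem disc (M : Type) [Field M] [NumberField M] (v : FinitePlace M) :
    ∃ A : ℝ, 1 < A ∧ ∀ x : M, x ≠ 0 → ∃ n : ℤ, v.1 x = A ^ n := by
  refine ⟨((Ideal.absNorm v.maximalIdeal.asIdeal : ℕ) : ℝ), ?_, ?_⟩
  · exact_mod_cast HeightOneSpectrum.one_lt_absNorm v.maximalIdeal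
  · intro x hx
    have h1 : v.1 x = ‖FinitePlace.embedding v.maximalIdeal x‖ :=
      (FinitePlace.norm_embedding_eq v x).symm
    have hx' : v.maximalIdeal.valuation M x ≠ 0 := (v.maximalIdeal.valuation M).ne_zero_iff.2 hx
    rw [h1, FinitePlace.norm_embedding', WithZeroMulInt.toNNReal_neg_apply _ hx']
    refine ⟨(WithZero.unzero hx').toAdd, ?_⟩
    push_cast
    rfl

/-- the valuation of a natural number is bounded -/
theorem wv_nat (hVB : T_VB) (M : Type) [Field M] [NumberField M] (p : ℕ) (hp : p.Prime) (v : FinitePlace M)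
    (hv : v.1 (p : M) < 1) (d : ℕ) (hd : 0 < d) : v.1 (p : M) ^ d ≤ v.1 (d : M) := by
  obtain ⟨_, h0, _, hm, _⟩ := hVB M p hp v hv
  obtain ⟨k, m, hpm, hkm⟩ := Nat.exists_eq_pow_mul_and_not_dvd hd.ne' p hp.ne_one
  have h1 : v.1 (d : M) = v.1 (p : M) ^ k := by
    rw [hkm]
    push_cast
    rw [map_mul, map_pow, hm m hpm, mul_one]
  rw [h1]
  have hk : k ≤ d := by
    have h2 : k < p ^ k := Nat.lt_pow_self hp.one_lt
    have h3 : p ^ k ≤ d := by
      rw [hkm]
      refine Nat.le_mul_of_pos_right _ (Nat.pos_of_ne_zero ?_)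
      rintro rfl
      exact hpm (dvd_zero p)
    omega
  exact pow_le_pow_of_le_one h0.le hv.le hk

/-- a nonzero element of a number field has a denominator -/
theorem denom (F : Type) [Field F] [NumberField F] (x : F) : ∃ d : ℕ, 0 < d ∧ IsIntegral ℤ ((d : F) * x) := by
  have h : IsAlgebraic ℤ x := by
    have : IsAlgebraic ℚ x := Algebra.IsAlgebraic.isAlgebraic x
    exact (IsFractionRing.isAlgebraic_iff ℤ ℚ F).2 this
  obtain ⟨y, hy, hi⟩ := h.exists_integral_multiple
  refine ⟨y.natAbs, Int.natAbs_pos.2 hy, ?_⟩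
  have h2 : IsIntegral ℤ ((y : F) * x) := by
    rwa [zsmul_eq_mul] at hi
  rcases Int.natAbs_eq y with h3 | h3
  · have h4 : ((y.natAbs : ℕ) : F) = (y : F) := by
      rw [← Int.cast_natCast, ← h3]
    rwa [h4]
  · have h4 : (y : F) = -((y.natAbs : ℕ) : F) := by
      rw [← Int.cast_natCast, ← Int.cast_neg, ← h3]
    rw [h4, neg_mul] at h2
    simpa using h2.neg

/-- lower bound for the values -/
theorem low (hVB : T_VB) (F : Type) [Field F] [NumberField F] (p : ℕ) (hp : p.Prime) (x : F) :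
    ∃ C : ℕ, ∀ (M : Type) [Field M] [NumberField M] [Algebra F M] (v : FinitePlace M), v.1 (p : M) < 1 →
      v.1 (p : M) ^ C * v.1 (algebraMap F M x) ≤ 1 := by
  obtain ⟨d, hd, hi⟩ := denom F x
  refine ⟨d, ?_⟩
  intro M _ _ _ v hv
  obtain ⟨_, h0, hint, _⟩ := hVB M p hp v hv
  have h1 : v.1 (algebraMap F M ((d : F) * x)) ≤ 1 := hint _ (hi.map (IsScalarTower.toAlgHom ℤ F M))
  rw [map_mul, map_natCast, map_mul] at h1
  refine le_trans (mul_le_mul_of_nonneg_right (wv_nat hVB M p hp v hv d hd) (v.1.nonneg _)) h1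

theorem prod_zp (A : ℝ) (hA : A ≠ 0) {r : ℕ} (f : Fin r → ℤ) (s : Finset (Fin r)) :
    ∏ i ∈ s, A ^ f i = A ^ (∑ i ∈ s, f i) := by
  classical
  refine Finset.induction_on s ?_ ?_
  · simp
  · intro a s ha ih
    rw [Finset.prod_insert ha, Finset.sum_insert ha, ih, zpow_add₀ hA]

/-- a common divisor which is a combination -/
theorem bez {r : ℕ} (n : Fin r → ℤ) : ∃ (e a : Fin r → ℤ), (∑ i, e i * n i ≤ 0) ∧
    ∀ i, n i = a i * ∑ j, e j * n j := by
  classical
  set I : Ideal ℤ := Ideal.span (Set.range n) with hI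
  obtain ⟨g, hg⟩ : ∃ g, I = Ideal.span {g} := (IsPrincipalIdealRing.principal I).principal
  have hgI : g ∈ I := by
    rw [hg]
    exact Ideal.mem_span_singleton_self g
  rw [hI, Ideal.span, Finsupp.mem_span_range_iff_exists_finsupp] at hgI
  obtain ⟨c, hc⟩ := hgI
  have hc' : ∑ i, c i * n i = g := by
    rw [← hc, Finsupp.sum_fintype _ _ (fun i => by simp)]
    simp
  have hdvd : ∀ i, g ∣ n i := by
    intro i
    rw [← Ideal.mem_span_singleton, ← hg]
    exact Ideal.subset_span ⟨i, rfl⟩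
  choose b hb using hdvd
  rcases le_total g 0 with h | h
  · refine ⟨fun i => c i, b, by rw [hc']; exact h, fun i => ?_⟩
    rw [hc', hb i]
    ring
  · have hc2 : ∑ i, (-c i) * n i = -g := by
      rw [← hc', ← Finset.sum_neg_distrib]
      exact Finset.sum_congr rfl fun i _ => by ring
    refine ⟨fun i => -c i, fun i => -b i, by rw [hc2]; omega, fun i => ?_⟩
    rw [hc2, hb i]
    ring

theorem pf_ADP (hVB : T_VB) : T_ADP := by
  classical
  intro F _ _ p hp r γ hγ
  choose C1 hC1 using fun i => low hVB F p hp (γ i)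
  choose C2 hC2 using fun i => low hVB F p hp (γ i)⁻¹
  refine ⟨∑ i, (C1 i + C2 i), ?_⟩
  intro M _ _ _ v hv
  obtain ⟨_, h0, _⟩ := hVB M p hp v hv
  obtain ⟨A, hA, hAv⟩ := disc M v
  have hA0 : 0 < A := by linarith
  have hγM : ∀ i, algebraMap F M (γ i) ≠ 0 := fun i => (map_ne_zero _).2 (hγ i)
  choose n hn using fun i => hAv (algebraMap F M (γ i)) (hγM i)
  -- values of products
  have hprod : ∀ e : Fin r → ℤ, v.1 (algebraMap F M (∏ i, γ i ^ e i)) = A ^ (∑ i, e i * n i) := by
    intro e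
    have h1 : v.1 (algebraMap F M (∏ i, γ i ^ e i)) = ∏ i, (v.1 (algebraMap F M (γ i))) ^ e i := by
      rw [map_prod, map_prod]
      refine Finset.prod_congr rfl fun i _ => ?_
      rw [map_zpow₀, map_zpow₀]
    rw [h1]
    have h2 : ∀ i, (v.1 (algebraMap F M (γ i))) ^ e i = A ^ (e i * n i) := by
      intro i
      rw [hn i, ← zpow_mul, mul_comm]
    simp_rw [h2]
    exact prod_zp A hA0.ne' _ _
  obtain ⟨e, a, hneg, hea⟩ := bez n
  have hlogA : 0 < Real.log A := Real.log_pos hA
  have hlogp : Real.log (v.1 (p : M)) < 0 := Real.log_neg h0 hv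
  refine ⟨e, a, ?_, ?_, ?_⟩
  · rw [hprod]
    exact zpow_le_one_of_nonpos₀ hA.le hneg
  · rw [wv, hprod, Real.log_zpow]
    rw [div_le_iff_of_neg hlogp]
    set G : ℤ := ∑ i, e i * n i with hG
    by_cases hG0 : G = 0
    · rw [hG0]
      have : ((∑ i, (C1 i + C2 i) : ℕ) : ℝ) * Real.log (v.1 (p : M)) ≤ 0 :=
        mul_nonpos_of_nonneg_of_nonpos (Nat.cast_nonneg _) hlogp.le
      simpa using this
    · -- some `n i` is nonzero
      have hex : ∃ i, n i ≠ 0 := by
        by_contra hc
        push Not at hc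
        apply hG0
        rw [hG]
        exact Finset.sum_eq_zero fun i _ => by rw [hc i, mul_zero]
      obtain ⟨i, hi⟩ := hex
      have hGn : |G| ≤ |n i| := by
        rw [hea i, abs_mul]
        have ha : a i ≠ 0 := by
          intro h
          apply hi
          rw [hea i, h, zero_mul]
        have h1 : 1 ≤ |a i| := Int.one_le_abs ha
        nlinarith [abs_nonneg G]
      have hG' : |G| = -G := abs_of_nonpos hneg
      -- bound for `n i`
      have b1 := hC1 i M v hv
      have b2 := hC2 i M v hv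
      rw [map_inv₀, map_inv₀, hn i, ← zpow_neg] at b2
      rw [hn i] at b1
      have hz1 : 0 < v.1 (p : M) ^ C1 i := pow_pos h0 _
      have hz2 : 0 < v.1 (p : M) ^ C2 i := pow_pos h0 _
      have l1 := Real.log_nonpos (by positivity) b1
      have l2 := Real.log_nonpos (by positivity) b2
      rw [Real.log_mul hz1.ne' (zpow_pos hA0 _).ne', Real.log_pow, Real.log_zpow] at l1
      rw [Real.log_mul hz2.ne' (zpow_pos hA0 _).ne', Real.log_pow, Real.log_zpow] at l2
      push_cast at l2
      have hnn : (|n i| : ℤ) * Real.log A ≤ -((C1 i + C2 i : ℕ) : ℝ) * Real.log (v.1 (p : M)) := by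
        push_cast
        have c1 : 0 ≤ -((C1 i : ℝ) * Real.log (v.1 (p : M))) := by
          have := mul_nonpos_of_nonneg_of_nonpos (Nat.cast_nonneg (α := ℝ) (C1 i)) hlogp.le
          linarith
        have c2 : 0 ≤ -((C2 i : ℝ) * Real.log (v.1 (p : M))) := by
          have := mul_nonpos_of_nonneg_of_nonpos (Nat.cast_nonneg (α := ℝ) (C2 i)) hlogp.le
          linarith
        rcases le_total 0 (n i) with h | h
        · have h' : (0 : ℝ) ≤ (n i : ℝ) := by exact_mod_cast h
          rw [abs_of_nonneg h']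
          linarith
        · have h' : (n i : ℝ) ≤ 0 := by exact_mod_cast h
          rw [abs_of_nonpos h']
          linarith
      have hsum : ((C1 i + C2 i : ℕ) : ℝ) ≤ ((∑ i, (C1 i + C2 i) : ℕ) : ℝ) := by
        exact_mod_cast Finset.single_le_sum (f := fun i => C1 i + C2 i) (fun _ _ => Nat.zero_le _)
          (Finset.mem_univ i)
      have hGr : -(G : ℝ) ≤ ((|n i| : ℤ) : ℝ) := by
        rw [hG'] at hGn
        exact_mod_cast hGn
      have t1 : -(G : ℝ) * Real.log A ≤ ((|n i| : ℤ) : ℝ) * Real.log A :=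
        mul_le_mul_of_nonneg_right hGr hlogA.le
      have t2 : ((C1 i + C2 i : ℕ) : ℝ) * -Real.log (v.1 (p : M)) ≤
          ((∑ i, (C1 i + C2 i) : ℕ) : ℝ) * -Real.log (v.1 (p : M)) :=
        mul_le_mul_of_nonneg_right hsum (by linarith)
      linarith
  · intro i
    have h1 : v.1 (algebraMap F M (γ i * (∏ j, γ j ^ e j) ^ (-a i))) =
        v.1 (algebraMap F M (γ i)) * (v.1 (algebraMap F M (∏ j, γ j ^ e j))) ^ (-a i) := by
      rw [map_mul, map_mul, map_zpow₀, map_zpow₀]
    rw [h1, hprod, hn i, ← zpow_mul, ← zpow_add₀ hA0.ne']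
    have h2 : n i + (∑ j, e j * n j) * -a i = 0 := by
      rw [hea i]
      ring
    rw [h2, zpow_zero]

end Pool.Agent.H68.RD
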