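import Pool.Agent.H82.RD.Targets4
import Pool.Agent.H59.AB.SEL3b

/-! # SEL4: choice of the primes to be removed, the primes of `x 0` being kept -/

set_option autoImplicit false

namespace Pool.Agent.H68.RD

open Pool.Agent.H38.RB Pool.Agent.H38.PS Pool.Agent.H82.RD Pool.Agent.H59.AB Finset

/-- the combinatorial core -/
theorem core4 (hG : T_GRD) (P : Fin 3 → Finset ℕ) (Y w : ℕ → ℝ) (h e : ℝ) (he0 : 0 < e)
    (he1 : e ≤ 1 / 10) (hh : 0 < h)
    (hY : ∀ i, ∀ p ∈ P i, 0 ≤ Y p) (hw : ∀ i, ∀ p ∈ P i, 0 < w p)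
    (hYh : ∀ i, ∑ p ∈ P i, Y p ≤ h)
    (hbig : ∀ c, ∑ p ∈ P c, Y p < e * h → ∀ a, a ≠ c → (1 - e) * h ≤ ∑ p ∈ P a, Y p) :
    (∃ (c d : Fin 3) (E : Finset ℕ), ((c = 1 ∧ d = 2) ∨ (c = 2 ∧ d = 1)) ∧ E ⊆ P d ∧
      ∑ p ∈ P c, Y p + ∑ p ∈ E, Y p ≤ (1 - e ^ 2) * h ∧
      ∑ p ∈ P 1, w p + ∑ p ∈ P 2, w p - ∑ p ∈ P c, w p - ∑ p ∈ E, w p ≤
        (1 / 2 + 2 * e) * (∑ p ∈ P 1, w p + ∑ p ∈ P 2, w p)) ∨
    ∃ (a b : Fin 3) (p : ℕ) (E : Finset ℕ), a ≠ b ∧ b ≠ 0 ∧ (a = 0 → E = ∅) ∧ p ∈ P b ∧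
      E ⊆ P a ∧ ∑ p ∈ E, Y p + e ^ 2 * h ≤ ∑ p ∈ P a, Y p ∧
      ∑ p ∈ P 1, w p + ∑ p ∈ P 2, w p - w p - ∑ p ∈ E, w p ≤
        (1 / 2 + 2 * e) * (∑ p ∈ P 1, w p + ∑ p ∈ P 2, w p) := by
  classical
  have hm : ∀ i, ∃ m : ℝ, 0 ≤ m ∧ (∀ p ∈ P i, w p ≤ m) ∧ ((P i).Nonempty → ∃ p ∈ P i, w p = m) := by
    intro i
    by_cases hne : (P i).Nonempty
    · obtain ⟨p, hp, hmax⟩ := Finset.exists_max_image (P i) w hne
      exact ⟨w p, (hw i p hp).le, hmax, fun _ => ⟨p, hp, rfl⟩⟩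
    · rw [Finset.not_nonempty_iff_eq_empty] at hne
      refine ⟨0, le_rfl, ?_, fun h => ?_⟩
      · intro p hp
        rw [hne] at hp
        simp at hp
      · rw [hne] at h
        simp at h
  choose m hm0 hmw hmp using hm
  have hW0 : ∀ i, 0 ≤ ∑ p ∈ P i, w p := fun i => Finset.sum_nonneg fun p hp => (hw i p hp).le
  have hne : ∀ i, 0 < ∑ p ∈ P i, Y p → (P i).Nonempty := by
    intro i hi
    by_contra hcon
    rw [Finset.not_nonempty_iff_eq_empty] at hcon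
    rw [hcon] at hi
    simp at hi
  have hgr : ∀ (i : Fin 3) (U τ : ℝ), ∑ p ∈ P i, Y p ≤ U → 0 < U → 0 ≤ τ → τ ≤ U →
      ∃ D ⊆ P i, ∑ p ∈ D, Y p ≤ τ ∧ τ / U * ∑ p ∈ P i, w p - m i ≤ ∑ p ∈ D, w p :=
    fun i U τ h1 h2 h3 h4 => hG (P i) Y w U (m i) τ (hY i) (hw i) (hmw i) (hm0 i) h1 h2 h3 h4
  have heh : 0 < e * h := mul_pos he0 hh
  have hW1 := hW0 1
  have hW2 := hW0 2
  by_cases hI : e * h ≤ ∑ p ∈ P 1, Y p ∧ e * h ≤ ∑ p ∈ P 2, Y p
  · -- both entries are large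
    right
    have hD : ∀ i, e * h ≤ ∑ p ∈ P i, Y p → ∃ D ⊆ P i, ∑ p ∈ D, Y p ≤ ∑ p ∈ P i, Y p - e ^ 2 * h ∧
        (1 - e) * ∑ p ∈ P i, w p - m i ≤ ∑ p ∈ D, w p := by
      intro i hIi
      have h1 : 0 < ∑ p ∈ P i, Y p := lt_of_lt_of_le heh hIi
      have h2 : e ^ 2 * h ≤ e * h := by nlinarith
      obtain ⟨D, hD, hD1, hD2⟩ := hgr i (∑ p ∈ P i, Y p) (∑ p ∈ P i, Y p - e ^ 2 * h) le_rfl h1
        (by linarith) (by nlinarith [sq_nonneg e])
      refine ⟨D, hD, hD1, le_trans (sub_le_sub_right ?_ _) hD2⟩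
      refine mul_le_mul_of_nonneg_right ?_ (hW0 i)
      rw [le_div_iff₀ h1]
      nlinarith
    obtain ⟨D1, hD1, hD1a, hD1b⟩ := hD 1 hI.1
    obtain ⟨D2, hD2, hD2a, hD2b⟩ := hD 2 hI.2
    obtain ⟨q1, hq1, hq1m⟩ := hmp 1 (hne 1 (lt_of_lt_of_le heh hI.1))
    obtain ⟨q2, hq2, hq2m⟩ := hmp 2 (hne 2 (lt_of_lt_of_le heh hI.2))
    by_cases h1 : (1 - e) / 2 * (∑ p ∈ P 1, w p + ∑ p ∈ P 2, w p) ≤ ∑ p ∈ D1, w p + m 2
    · refine ⟨1, 2, q2, D1, by decide, by decide, fun h => absurd h (by decide), hq2, hD1,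
        by linarith, ?_⟩
      rw [hq2m]
      nlinarith
    · refine ⟨2, 1, q1, D2, by decide, by decide, fun h => absurd h (by decide), hq1, hD2,
        by linarith, ?_⟩
      rw [hq1m]
      rw [not_le] at h1
      nlinarith
  · -- one entry is small
    obtain ⟨c, d, hcd, hc⟩ : ∃ c d : Fin 3, ((c = 1 ∧ d = 2) ∨ (c = 2 ∧ d = 1)) ∧
        ∑ p ∈ P c, Y p < e * h := by
      by_cases h1 : e * h ≤ ∑ p ∈ P 1, Y p
      · refine ⟨2, 1, Or.inr ⟨rfl, rfl⟩, ?_⟩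
        by_contra h2
        exact hI ⟨h1, not_lt.1 h2⟩
      · exact ⟨1, 2, Or.inl ⟨rfl, rfl⟩, not_le.1 h1⟩
    have hc0 : (0 : Fin 3) ≠ c := by rcases hcd with ⟨rfl, -⟩ | ⟨rfl, -⟩ <;> decide
    have hdc : d ≠ c := by rcases hcd with ⟨rfl, rfl⟩ | ⟨rfl, rfl⟩ <;> decide
    have hd0 : d ≠ 0 := by rcases hcd with ⟨-, rfl⟩ | ⟨-, rfl⟩ <;> decide
    have hsum : ∑ p ∈ P 1, w p + ∑ p ∈ P 2, w p = ∑ p ∈ P c, w p + ∑ p ∈ P d, w p := by
      rcases hcd with ⟨rfl, rfl⟩ | ⟨rfl, rfl⟩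
      · rfl
      · exact add_comm _ _
    have hY0 := hbig c hc 0 hc0
    have hYd := hbig c hc d hdc
    have hpos : 0 < (1 - e) * h := mul_pos (by linarith) hh
    have h3e : 0 ≤ (1 - 3 * e) * h := mul_nonneg (by linarith) hh.le
    have h3e' : (1 - 3 * e) * h ≤ h := by nlinarith
    have hdiv : (1 - 3 * e) * h / h = 1 - 3 * e := by field_simp
    obtain ⟨E, hE, hE1, hE2⟩ := hgr d h ((1 - 3 * e) * h) (hYh d) hh h3e h3e'
    rw [hdiv] at hE2
    obtain ⟨q, hq, hqm⟩ := hmp d (hne d (lt_of_lt_of_le hpos hYd))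
    have hWc := hW0 c
    have hWd := hW0 d
    have he2 : e ^ 2 * h ≤ e * h := by nlinarith
    rw [hsum]
    by_cases h1 : (1 / 2 - 2 * e) * (∑ p ∈ P c, w p + ∑ p ∈ P d, w p) ≤
        ∑ p ∈ P c, w p + ∑ p ∈ E, w p
    · left
      refine ⟨c, d, E, hcd, hE, by nlinarith, by linarith⟩
    · right
      rw [not_le] at h1
      refine ⟨0, d, q, ∅, hd0.symm, hd0, fun _ => rfl, hq, Finset.empty_subset _, ?_, ?_⟩
      · rw [Finset.sum_empty]
        nlinarith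
      · rw [hqm, Finset.sum_empty]
        nlinarith

theorem pf_SEL4 : T_SEL4 := by
  classical
  intro ε hε
  set e : ℝ := min ε 1 / 10 with he
  have hmin0 : 0 < min ε 1 := lt_min hε one_pos
  have he0 : 0 < e := by positivity
  have he1 : e ≤ 1 / 10 := by
    rw [he]
    have := min_le_right ε 1
    linarith
  have heε : 2 * e ≤ ε := by
    rw [he]
    have := min_le_left ε 1
    linarith
  refine ⟨e ^ 2, 1 / e, by positivity, by nlinarith, by positivity, ?_⟩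
  intro x hx hK
  set h := Real.log (ht x) with hh
  have hh0 : 0 < h := lt_of_lt_of_le (by positivity) hK
  have h0 : ∀ i, (x i).natAbs ≠ 0 := fun i => Int.natAbs_ne_zero.2 (hx.1 i)
  have hpos : ∀ i, (0 : ℝ) < (x i).natAbs := fun i =>
    Nat.cast_pos.2 (Nat.pos_of_ne_zero (h0 i))
  have hprime : ∀ i, ∀ p ∈ (x i).natAbs.primeFactors, p.Prime := fun i p hp =>
    Nat.prime_of_mem_primeFactors hp
  have hlog : ∀ i, ∀ p ∈ (x i).natAbs.primeFactors, 0 < Real.log (p : ℝ) := fun i p hp =>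
    Real.log_pos (by exact_mod_cast (hprime i p hp).one_lt)
  have hY : ∀ i, ∀ p ∈ (x i).natAbs.primeFactors,
      0 ≤ ((pr x).factorization p : ℝ) * Real.log p := fun i p hp =>
    mul_nonneg (Nat.cast_nonneg _) (hlog i p hp).le
  have hle : ∀ i, (x i).natAbs ≤ ht x := by
    intro i
    unfold ht
    fin_cases i
    · exact le_max_left _ _
    · exact (le_max_left _ _).trans (le_max_right _ _)
    · exact (le_max_right _ _).trans (le_max_right _ _)
  have hYh : ∀ i, ∑ p ∈ (x i).natAbs.primeFactors,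
      ((pr x).factorization p : ℝ) * Real.log p ≤ h := by
    intro i
    rw [← log_entry hx i]
    exact Real.log_le_log (hpos i) (Nat.cast_le.2 (hle i))
  have h12 : (x 1 * x 2).natAbs.primeFactors =
      (x 1).natAbs.primeFactors ∪ (x 2).natAbs.primeFactors := by
    rw [Int.natAbs_mul, Nat.primeFactors_mul (h0 1) (h0 2)]
  have hΛ : Real.log (pd (x 1 * x 2).natAbs.primeFactors : ℝ) =
      ∑ p ∈ (x 1).natAbs.primeFactors, Real.log (p : ℝ) +
        ∑ p ∈ (x 2).natAbs.primeFactors, Real.log (p : ℝ) := by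
    rw [log_pd _ (fun p hp => Nat.prime_of_mem_primeFactors hp), h12,
      Finset.sum_union (disj hx (by decide))]
  have hΛ0 : 0 ≤ Real.log (pd (x 1 * x 2).natAbs.primeFactors : ℝ) := by
    rw [hΛ]
    exact add_nonneg (Finset.sum_nonneg fun p hp => (hlog 1 p hp).le)
      (Finset.sum_nonneg fun p hp => (hlog 2 p hp).le)
  have hfin : (1 / 2 + 2 * e) * Real.log (pd (x 1 * x 2).natAbs.primeFactors : ℝ) ≤
      (1 / 2 + ε) * Real.log (pd (x 1 * x 2).natAbs.primeFactors : ℝ) :=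
    mul_le_mul_of_nonneg_right (by linarith) hΛ0
  rcases core4 Pool.Agent.H33.RB.GRD (fun i => (x i).natAbs.primeFactors)
    (fun p => ((pr x).factorization p : ℝ) * Real.log p) (fun p => Real.log (p : ℝ)) h e he0 he1
    hh0 hY hlog hYh (by
      intro c hc a ha
      rw [← log_entry hx c] at hc
      rw [← log_entry hx a]
      exact big_entry hx he0 he1 hK hc ha) with
    ⟨c, d, E, hcd, hE, h1, h2⟩ | ⟨a, b, p, E, hab, hb0, ha0, hp, hE, h1, h2⟩
  · left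
    have hc0 : c ≠ 0 := by rcases hcd with ⟨rfl, -⟩ | ⟨rfl, -⟩ <;> decide
    have hdc : d ≠ c := by rcases hcd with ⟨rfl, rfl⟩ | ⟨rfl, rfl⟩ <;> decide
    have hd0 : d ≠ 0 := by rcases hcd with ⟨-, rfl⟩ | ⟨-, rfl⟩ <;> decide
    have hEc : Disjoint (x c).natAbs.primeFactors E :=
      Finset.disjoint_of_subset_right hE (disj hx hdc.symm)
    have hsub12 : (x c).natAbs.primeFactors ∪ E ⊆ (x 1 * x 2).natAbs.primeFactors := by
      rw [h12]
      rcases hcd with ⟨rfl, rfl⟩ | ⟨rfl, rfl⟩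
      · exact Finset.union_subset_union subset_rfl hE
      · rw [Finset.union_comm]
        exact Finset.union_subset_union hE subset_rfl
    have hsub : (x c).natAbs.primeFactors ∪ E ⊆ (pr x).primeFactors := by
      rw [primes_pr hx]
      refine Finset.union_subset ?_ (hE.trans ?_)
      · exact Finset.subset_biUnion_of_mem (fun i : Fin 3 => (x i).natAbs.primeFactors)
          (Finset.mem_univ c)
      · exact Finset.subset_biUnion_of_mem (fun i : Fin 3 => (x i).natAbs.primeFactors)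
          (Finset.mem_univ d)
    refine ⟨(x c).natAbs.primeFactors ∪ E, hsub, ?_, ?_, ?_⟩
    · rw [Finset.disjoint_union_left]
      exact ⟨disj hx hc0, Finset.disjoint_of_subset_left hE (disj hx hd0)⟩
    · rw [smo_log_tp _ (fun p hp => Nat.prime_of_mem_primeFactors (hsub hp)),
        Finset.sum_union hEc]
      exact h1
    · have h3 : Real.log (pd ((x 1 * x 2).natAbs.primeFactors \
            ((x c).natAbs.primeFactors ∪ E)) : ℝ) +
          (∑ p ∈ (x c).natAbs.primeFactors, Real.log (p : ℝ) + ∑ p ∈ E, Real.log (p : ℝ)) =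
          Real.log (pd (x 1 * x 2).natAbs.primeFactors : ℝ) := by
        rw [log_pd _ (fun p hp => Nat.prime_of_mem_primeFactors (Finset.sdiff_subset hp)),
          log_pd _ (fun p hp => Nat.prime_of_mem_primeFactors hp), ← Finset.sum_union hEc]
        exact Finset.sum_sdiff hsub12
      rw [← hΛ] at h2
      linarith
  · right
    refine ⟨a, b, p, E, hab, hb0, ha0, hp, hE, ?_, ?_⟩
    · rw [smo_log_tp E (fun q hq => hprime a q (hE hq)), log_entry hx a]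
      have h3 : ∑ q ∈ E, (((x a).natAbs).factorization q : ℝ) * Real.log q =
          ∑ q ∈ E, ((pr x).factorization q : ℝ) * Real.log q :=
        Finset.sum_congr rfl fun q hq => by rw [fact_pr hx (hE hq)]
      rw [h3]
      exact h1
    · rw [log_pd E (fun q hq => hprime a q (hE hq))]
      rw [← hΛ] at h2
      exact h2.trans hfin

end Pool.Agent.H68.RD
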