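import Pool.Agent.H82.RD.Targets4
import Pool.Agent.H13.PS.LP2

/-! # SM4: the triples of small height with one entry of given radical -/

set_option autoImplicit false

open Pool.Agent.H38.RB Pool.Agent.H38.PS Pool.Agent.H82.RD

namespace Pool.Agent.H68.RD

/-- the numbers up to `M` with the prime factors `P` -/
noncomputable def SP (M : ℕ) (P : Finset ℕ) : Finset ℕ :=
  (Finset.Icc 1 M).filter fun n => n.primeFactors = P

lemma SP_step {ε : ℝ} (M : ℕ) {p : ℕ} (hp : p.Prime) {P : Finset ℕ} (hpP : p ∉ P) :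
    ∑ n ∈ SP M (insert p P), (n : ℝ) ^ (-ε) ≤
      (∑ e ∈ Finset.Icc 1 M, ((p : ℝ) ^ (-ε)) ^ e) * ∑ n ∈ SP M P, (n : ℝ) ^ (-ε) := by
  classical
  have hp0 : (0 : ℝ) < p := by exact_mod_cast hp.pos
  rw [Finset.sum_mul_sum, ← Finset.sum_product']
  set φ : ℕ → ℕ × ℕ := fun n => (n.factorization p, n / p ^ n.factorization p) with hφ
  have hn : ∀ n, p ^ n.factorization p * (n / p ^ n.factorization p) = n :=
    fun n => Nat.ordProj_mul_ordCompl_eq_self n p
  have hinj : Set.InjOn φ (SP M (insert p P)) := by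
    intro n _ m _ h
    simp only [hφ, Prod.mk.injEq] at h
    rw [← hn n, ← hn m, h.1]
    rw [h.1] at h
    rw [h.2]
  have hmaps : (SP M (insert p P)).image φ ⊆ Finset.Icc 1 M ×ˢ SP M P := by
    intro q hq
    obtain ⟨n, hnS, rfl⟩ := Finset.mem_image.1 hq
    unfold SP at hnS
    rw [Finset.mem_filter, Finset.mem_Icc] at hnS
    obtain ⟨⟨h1, h2⟩, h3⟩ := hnS
    have hn0 : n ≠ 0 := by omega
    have hpn : p ∈ n.primeFactors := by rw [h3]; exact Finset.mem_insert_self _ _
    have hpd : p ∣ n := Nat.dvd_of_mem_primeFactors hpn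
    have h4 : 1 ≤ n.factorization p := (hp.factorization_pos_of_dvd hn0 hpd)
    have h5 : n.factorization p ≤ M := (Nat.factorization_lt p hn0).le.trans h2
    have h6 : 0 < n / p ^ n.factorization p := Nat.ordCompl_pos p hn0
    rw [Finset.mem_product, Finset.mem_Icc]
    refine ⟨⟨h4, h5⟩, ?_⟩
    unfold SP
    rw [Finset.mem_filter, Finset.mem_Icc]
    refine ⟨⟨h6, (Nat.div_le_self _ _).trans h2⟩, ?_⟩
    show (n / p ^ n.factorization p).primeFactors = P
    rw [← Nat.support_factorization, Nat.factorization_ordCompl, Finsupp.support_erase,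
      Nat.support_factorization, h3, Finset.erase_insert hpP]
  calc ∑ n ∈ SP M (insert p P), (n : ℝ) ^ (-ε)
      = ∑ n ∈ SP M (insert p P), ((p : ℝ) ^ (-ε)) ^ (φ n).1 * ((φ n).2 : ℝ) ^ (-ε) := by
        refine Finset.sum_congr rfl fun n _ => ?_
        conv_lhs => rw [← hn n]
        push_cast
        rw [Real.mul_rpow (by positivity) (by positivity), ← Real.rpow_natCast, ← Real.rpow_natCast,
          ← Real.rpow_mul hp0.le, ← Real.rpow_mul hp0.le, mul_comm (n.factorization p : ℝ)]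
    _ = ∑ q ∈ (SP M (insert p P)).image φ, ((p : ℝ) ^ (-ε)) ^ q.1 * (q.2 : ℝ) ^ (-ε) :=
        (Finset.sum_image (f := fun q : ℕ × ℕ => ((p : ℝ) ^ (-ε)) ^ q.1 * (q.2 : ℝ) ^ (-ε))
          hinj).symm
    _ ≤ _ := Finset.sum_le_sum_of_subset_of_nonneg hmaps fun q _ _ => by positivity

/-- Rankin's trick for the numbers with given prime factors -/
theorem SP_card {ε : ℝ} (hε : 0 < ε) : ∃ C : ℝ, 1 ≤ C ∧ ∀ (M : ℕ) (P : Finset ℕ), 1 ≤ M →
    ((SP M P).card : ℝ) ≤ C * (M : ℝ) ^ ε := by
  classical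
  set r₂ : ℝ := (2 : ℝ) ^ (-ε) with hr₂
  have h21 : r₂ < 1 := Real.rpow_lt_one_of_one_lt_of_neg (by norm_num) (by linarith)
  have h20 : 0 < r₂ := by positivity
  set c₀ : ℝ := max 1 (r₂ / (1 - r₂)) with hc₀
  have hc1 : 1 ≤ c₀ := le_max_left _ _
  set K : ℕ := ⌈(2 : ℝ) ^ (1 / ε)⌉₊ with hK
  have hfac : ∀ (M p : ℕ), p.Prime → ∑ e ∈ Finset.Icc 1 M, ((p : ℝ) ^ (-ε)) ^ e ≤
      if p < K then c₀ else 1 := by
    intro M p hp
    have hp0 : (0 : ℝ) < p := by exact_mod_cast hp.pos
    have hp2 : (2 : ℝ) ≤ p := by exact_mod_cast hp.two_le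
    set r : ℝ := (p : ℝ) ^ (-ε) with hr
    have hr0 : 0 < r := Real.rpow_pos_of_pos hp0 _
    have hrr : r ≤ r₂ := Real.rpow_le_rpow_of_nonpos (by norm_num) hp2 (by linarith)
    have hr1 : r < 1 := by linarith
    have hsum : ∑ e ∈ Finset.Icc 1 M, r ^ e ≤ r / (1 - r) := by
      have hgeo := (hasSum_geometric_of_lt_one hr0.le hr1).mul_left r
      have h1 : ∑ e ∈ Finset.Icc 1 M, r ^ e = ∑ e ∈ Finset.range M, r * r ^ e := by
        have h2 : ∑ e ∈ Finset.range M, r ^ (e + 1) = ∑ e ∈ Finset.Ico (0 + 1) (M + 1), r ^ e := by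
          rw [Finset.range_eq_Ico]
          exact Finset.sum_Ico_add' (fun e => r ^ e) 0 M 1
        have h3 : Finset.Icc 1 M = Finset.Ico (0 + 1) (M + 1) := by
          ext e
          rw [Finset.mem_Icc, Finset.mem_Ico]
          omega
        rw [h3, ← h2]
        exact Finset.sum_congr rfl fun e _ => by rw [pow_succ, mul_comm]
      rw [h1]
      have h2 := sum_le_hasSum (Finset.range M) (fun e _ => by positivity) hgeo
      calc _ ≤ r * (1 - r)⁻¹ := h2
        _ = _ := by rw [div_eq_mul_inv]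
    refine hsum.trans ?_
    split_ifs with hpK
    · refine le_trans ?_ (le_max_right _ _)
      exact div_le_div₀ h20.le hrr (by linarith) (by linarith)
    · rw [not_lt, hK, Nat.ceil_le] at hpK
      have h2 : (2 : ℝ) ≤ (p : ℝ) ^ ε := by
        calc (2 : ℝ) = ((2 : ℝ) ^ (1 / ε)) ^ ε := by
              rw [← Real.rpow_mul (by norm_num), one_div_mul_cancel hε.ne', Real.rpow_one]
          _ ≤ _ := Real.rpow_le_rpow (by positivity) hpK hε.le
      have h3 : r ≤ 1 / 2 := by
        rw [hr, Real.rpow_neg hp0.le, ← one_div]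
        exact one_div_le_one_div_of_le (by norm_num) h2
      rw [div_le_one (by linarith)]
      linarith
  have hind : ∀ (M : ℕ), 1 ≤ M → ∀ P : Finset ℕ, ∑ n ∈ SP M P, (n : ℝ) ^ (-ε) ≤
      ∏ p ∈ P, if p < K then c₀ else 1 := by
    intro M hM P
    by_cases hP : ∀ p ∈ P, p.Prime
    · induction P using Finset.induction_on with
      | empty =>
        rw [Finset.prod_empty]
        have h1 : SP M ∅ ⊆ {1} := by
          intro n hn
          unfold SP at hn
          rw [Finset.mem_filter, Finset.mem_Icc, Nat.primeFactors_eq_empty] at hn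
          rw [Finset.mem_singleton]
          omega
        refine (Finset.sum_le_sum_of_subset_of_nonneg h1 fun q _ _ => by positivity).trans ?_
        rw [Finset.sum_singleton]
        norm_num
      | insert p P hpP ih =>
        rw [Finset.prod_insert hpP]
        refine (SP_step M (hP p (Finset.mem_insert_self _ _)) hpP).trans ?_
        refine mul_le_mul (hfac M p (hP p (Finset.mem_insert_self _ _)))
          (ih fun q hq => hP q (Finset.mem_insert_of_mem hq))
          (Finset.sum_nonneg fun q _ => by positivity) ?_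
        split_ifs
        · linarith
        · norm_num
    · have h1 : SP M P = ∅ := by
        rw [Finset.eq_empty_iff_forall_notMem]
        intro n hn
        unfold SP at hn
        rw [Finset.mem_filter] at hn
        exact hP fun p hp => Nat.prime_of_mem_primeFactors (by rw [hn.2]; exact hp)
      rw [h1, Finset.sum_empty]
      exact Finset.prod_nonneg fun p _ => by split_ifs <;> linarith
  have hprod : ∀ P : Finset ℕ, (∏ p ∈ P, if p < K then c₀ else 1) ≤ c₀ ^ K := by
    intro P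
    rw [Finset.prod_ite, Finset.prod_const, Finset.prod_const_one, mul_one]
    refine pow_le_pow_right₀ hc1 ?_
    calc (P.filter fun p => p < K).card ≤ (Finset.range K).card :=
          Finset.card_le_card fun p hp => Finset.mem_range.2 (Finset.mem_filter.1 hp).2
      _ = K := Finset.card_range K
  refine ⟨c₀ ^ K, one_le_pow₀ hc1, fun M P hM => ?_⟩
  have hM0 : (0 : ℝ) < M := by exact_mod_cast hM
  calc ((SP M P).card : ℝ) = ∑ n ∈ SP M P, (1 : ℝ) := by simp
    _ ≤ ∑ n ∈ SP M P, (n : ℝ) ^ (-ε) * (M : ℝ) ^ ε := by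
        refine Finset.sum_le_sum fun n hn => ?_
        unfold SP at hn
        rw [Finset.mem_filter, Finset.mem_Icc] at hn
        have hn0 : (0 : ℝ) < n := by exact_mod_cast hn.1.1
        rw [Real.rpow_neg hn0.le, ← div_eq_inv_mul, le_div_iff₀ (Real.rpow_pos_of_pos hn0 _),
          one_mul]
        exact Real.rpow_le_rpow hn0.le (by exact_mod_cast hn.1.2) hε.le
    _ = (∑ n ∈ SP M P, (n : ℝ) ^ (-ε)) * (M : ℝ) ^ ε := (Finset.sum_mul _ _ _).symm
    _ ≤ _ := mul_le_mul_of_nonneg_right ((hind M hM P).trans (hprod P)) (by positivity)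

/-- the nonzero integers up to `M` with the prime factors `P` -/
noncomputable def SZ (M : ℕ) (P : Finset ℕ) : Finset ℤ :=
  (Finset.Icc (-(M : ℤ)) M).filter fun z => z ≠ 0 ∧ z.natAbs.primeFactors = P

lemma SZ_card (M : ℕ) (P : Finset ℕ) : (SZ M P).card ≤ 2 * (SP M P).card := by
  classical
  have h1 : SZ M P ⊆ (SP M P).image (fun n : ℕ => (n : ℤ)) ∪ (SP M P).image (fun n : ℕ => -(n : ℤ)) := by
    intro z hz
    unfold SZ at hz
    rw [Finset.mem_filter, Finset.mem_Icc] at hz
    obtain ⟨⟨h1, h2⟩, h3, h4⟩ := hz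
    have h5 : z.natAbs ∈ SP M P := by
      unfold SP
      rw [Finset.mem_filter, Finset.mem_Icc]
      exact ⟨⟨by omega, by omega⟩, h4⟩
    rw [Finset.mem_union, Finset.mem_image, Finset.mem_image]
    rcases le_total 0 z with h | h
    · exact Or.inl ⟨_, h5, by omega⟩
    · exact Or.inr ⟨_, h5, by omega⟩
  have h2 := Finset.card_le_card h1
  have h3 := Finset.card_union_le ((SP M P).image (fun n : ℕ => (n : ℤ)))
    ((SP M P).image (fun n : ℕ => -(n : ℤ)))
  have h4 : ((SP M P).image (fun n : ℕ => (n : ℤ))).card ≤ (SP M P).card := Finset.card_image_le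
  have h5 : ((SP M P).image (fun n : ℕ => -(n : ℤ))).card ≤ (SP M P).card := Finset.card_image_le
  omega

theorem pf_SM4 : T_SM4 := by
  classical
  intro A ε hA hε
  have hA0 : 0 < A := by linarith
  obtain ⟨C, hC, hcard⟩ := SP_card (ε := ε / (2 * A)) (by positivity)
  refine ⟨8 * C ^ 2, by positivity, ?_⟩
  intro s X R hX hR hRX
  have hX0 : 0 < X := by linarith
  have hXA : 1 ≤ X ^ A := Real.one_le_rpow hX hA0.le
  set M : ℕ := ⌊X ^ A⌋₊ with hM
  have hM1 : 1 ≤ M := Nat.le_floor (by exact_mod_cast hXA)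
  have hMX : (M : ℝ) ≤ X ^ A := Nat.floor_le (by linarith)
  set B : ℝ := X ^ (ε / 2) with hB
  have hB0 : 0 < B := by positivity
  have hZ : ∀ P : Finset ℕ, ((SZ M P).card : ℝ) ≤ 2 * C * B := by
    intro P
    have h1 : ((SZ M P).card : ℝ) ≤ 2 * (SP M P).card := by exact_mod_cast SZ_card M P
    have h2 := hcard M P hM1
    have h3 : (M : ℝ) ^ (ε / (2 * A)) ≤ B := by
      refine (Real.rpow_le_rpow (Nat.cast_nonneg _) hMX (by positivity)).trans (le_of_eq ?_)
      rw [← Real.rpow_mul hX0.le, hB]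
      congr 1
      field_simp
    have h4 : C * (M : ℝ) ^ (ε / (2 * A)) ≤ C * B := mul_le_mul_of_nonneg_left h3 (by linarith)
    linarith
  set D : ℕ := ⌊R ^ (1 / 2 : ℝ)⌋₊ with hD
  have hDR : (D : ℝ) ≤ R ^ (1 / 2 : ℝ) := Nat.floor_le (by positivity)
  set W : Finset ℤ := (Finset.Icc 1 D).biUnion fun t => SZ M t.primeFactors with hW
  have hWc : (W.card : ℝ) ≤ R ^ (1 / 2 : ℝ) * (2 * C * B) := by
    have h1 : (W.card : ℝ) ≤ ∑ t ∈ Finset.Icc 1 D, ((SZ M t.primeFactors).card : ℝ) := by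
      exact_mod_cast Finset.card_biUnion_le
    refine h1.trans ((Finset.sum_le_sum fun t _ => hZ t.primeFactors).trans ?_)
    rw [Finset.sum_const, Nat.card_Icc, nsmul_eq_mul, Nat.add_sub_cancel]
    exact mul_le_mul_of_nonneg_right hDR (by positivity)
  set S : Set (Fin 3 → ℤ) := {x | Adm x ∧ pd (x 0).natAbs.primeFactors = s ∧
    (pd (x 1 * x 2).natAbs.primeFactors : ℝ) ≤ R ∧ Real.log (ht x) ≤ A * Real.log X} with hS
  set T : Fin 3 → Set (Fin 3 → ℤ) := fun i => {x | Adm x ∧ x 0 ∈ SZ M s.primeFactors ∧ x i ∈ W}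
    with hT
  have hTi : ∀ i : Fin 3, i ≠ 0 → (T i).Finite ∧
      ((T i).ncard : ℝ) ≤ 4 * C ^ 2 * R ^ (1 / 2 : ℝ) * X ^ ε := by
    intro i hi
    set φ : (Fin 3 → ℤ) → ℤ × ℤ := fun x => (x 0, x i) with hφ
    have hmaps : ∀ x ∈ T i, φ x ∈ ((SZ M s.primeFactors ×ˢ W : Finset (ℤ × ℤ)) : Set (ℤ × ℤ)) := by
      rintro x ⟨-, h1, h2⟩
      rw [Finset.mem_coe, Finset.mem_product]
      exact ⟨h1, h2⟩
    have hinj : Set.InjOn φ (T i) := by
      rintro x ⟨hx, -⟩ y ⟨hy, -⟩ h
      simp only [hφ, Prod.mk.injEq] at h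
      have hx2 := hx.2.2
      have hy2 := hy.2.2
      funext j
      fin_cases i
      · exact absurd rfl hi
      · simp only [Fin.mk_one] at h
        fin_cases j
        · exact h.1
        · exact h.2
        · simp only [Fin.reduceFinMk]
          linarith [h.1, h.2]
      · simp only [Fin.reduceFinMk] at h
        fin_cases j
        · exact h.1
        · simp only [Fin.mk_one]
          linarith [h.1, h.2]
        · exact h.2
    have hfin : (T i).Finite := Set.Finite.of_injOn hmaps hinj (Finset.finite_toSet _)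
    refine ⟨hfin, ?_⟩
    have h1 := Set.ncard_le_ncard_of_injOn φ hmaps hinj (Finset.finite_toSet _)
    rw [Set.ncard_coe_finset, Finset.card_product] at h1
    have h2 : ((T i).ncard : ℝ) ≤ (SZ M s.primeFactors).card * W.card := by exact_mod_cast h1
    refine h2.trans ((mul_le_mul (hZ _) hWc (by positivity) (by positivity)).trans (le_of_eq ?_))
    have h3 : X ^ ε = B * B := by
      rw [hB, ← Real.rpow_add hX0]
      congr 1
      ring
    rw [h3]
    ring
  have hsub : S ⊆ T 1 ∪ T 2 := by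
    rintro x ⟨hx, h0, hr, hl⟩
    have hht : (ht x : ℝ) ≤ X ^ A := by
      have h0 : 0 < ht x := lt_of_lt_of_le (Int.natAbs_pos.2 (hx.1 0)) (le_max_left _ _)
      have h0' : (0 : ℝ) < ht x := by exact_mod_cast h0
      rw [← Real.log_rpow hX0] at hl
      exact (Real.log_le_log_iff h0' (by positivity)).1 hl
    have hhM : ht x ≤ M := Nat.le_floor hht
    have hb : ∀ i, (x i).natAbs ≤ M := fun i => (Pool.Agent.H13.PS.le_ht x i).trans hhM
    have hSZ : ∀ i, x i ∈ SZ M (x i).natAbs.primeFactors := by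
      intro i
      unfold SZ
      rw [Finset.mem_filter, Finset.mem_Icc]
      have := hb i
      exact ⟨⟨by omega, by omega⟩, hx.1 i, rfl⟩
    have hx0 : x 0 ∈ SZ M s.primeFactors := by
      have h1 : s.primeFactors = (x 0).natAbs.primeFactors := by
        rw [← h0]
        exact Pool.Agent.H13.PS.pf_pd fun p hp => Nat.prime_of_mem_primeFactors hp
      rw [h1]
      exact hSZ 0
    have hxW : ∀ i, (pd (x i).natAbs.primeFactors : ℝ) ≤ R ^ (1 / 2 : ℝ) → x i ∈ W := by
      intro i h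
      rw [hW, Finset.mem_biUnion]
      refine ⟨pd (x i).natAbs.primeFactors, ?_, ?_⟩
      · rw [Finset.mem_Icc]
        exact ⟨Pool.Agent.H13.PS.pd_pos fun p hp => Nat.prime_of_mem_primeFactors hp, Nat.le_floor h⟩
      · rw [Pool.Agent.H13.PS.pf_pd fun p hp => Nat.prime_of_mem_primeFactors hp]
        exact hSZ i
    have hcop : (x 1).natAbs.Coprime (x 2).natAbs :=
      Int.isCoprime_iff_gcd_eq_one.1 (hx.2.1 1 2 (by decide))
    have hpd : pd (x 1 * x 2).natAbs.primeFactors =
        pd (x 1).natAbs.primeFactors * pd (x 2).natAbs.primeFactors := by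
      unfold pd
      rw [Int.natAbs_mul, hcop.primeFactors_mul, Finset.prod_union hcop.disjoint_primeFactors]
    rw [hpd] at hr
    push_cast at hr
    have hRR : R ^ (1 / 2 : ℝ) * R ^ (1 / 2 : ℝ) = R := by
      rw [← Real.rpow_add (by linarith)]
      norm_num
    by_cases h1 : (pd (x 1).natAbs.primeFactors : ℝ) ≤ R ^ (1 / 2 : ℝ)
    · exact Or.inl ⟨hx, hx0, hxW 1 h1⟩
    · refine Or.inr ⟨hx, hx0, hxW 2 ?_⟩
      by_contra h2
      rw [not_le] at h1 h2
      have h3 := mul_lt_mul'' h1 h2 (by positivity) (by positivity)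
      linarith
  obtain ⟨f1, c1⟩ := hTi 1 (by decide)
  obtain ⟨f2, c2⟩ := hTi 2 (by decide)
  refine ⟨(f1.union f2).subset hsub, ?_⟩
  have h1 := Set.ncard_le_ncard hsub (f1.union f2)
  have h2 := Set.ncard_union_le (T 1) (T 2)
  have h3 : (S.ncard : ℝ) ≤ (T 1).ncard + (T 2).ncard := by exact_mod_cast h1.trans h2
  linarith

end Pool.Agent.H68.RD
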