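import Pool.Agent.H82.RD.Targets

/-!
# MP_7ecdd4_nt, triples of any height: module DCW
-/

set_option autoImplicit false

namespace Pool.Agent.H68.RD

open Pool.Agent.H82.RD

theorem pf_DCW : T_DCW := by
  classical
  intro κ I _ _ om N' T h f hf
  have h1 : ∀ t ∈ Finset.Icc 1 T, Fintype.card κ ≤
      (Finset.univ.filter fun j : κ => t ≤ om (f j)).card + N' * t := by
    intro t ht
    rw [Finset.mem_Icc] at ht
    have h2 : (Finset.univ.filter fun j : κ => om (f j) < t).card ≤ N' * t := by
      refine le_trans ?_ (h t ht.1 ht.2)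
      refine Finset.card_le_card_of_injOn f (fun j hj => ?_) hf.injOn
      rw [Finset.mem_coe, Finset.mem_filter]
      exact ⟨Finset.mem_univ _, (Finset.mem_filter.1 hj).2⟩
    have h3 := Finset.card_filter_add_card_filter_not (s := (Finset.univ : Finset κ))
      (fun j => t ≤ om (f j))
    have h4 : (Finset.univ.filter fun j : κ => ¬ t ≤ om (f j)) =
        Finset.univ.filter fun j : κ => om (f j) < t := by
      ext j
      simp
    rw [h4, Finset.card_univ] at h3
    omega
  have h2 := Finset.sum_le_sum h1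
  rw [Finset.sum_const, Finset.sum_add_distrib, Nat.card_Icc, ← Finset.mul_sum] at h2
  simp only [Nat.add_sub_cancel, smul_eq_mul] at h2
  have h3 : ∑ t ∈ Finset.Icc 1 T, (Finset.univ.filter fun j : κ => t ≤ om (f j)).card ≤
      ∑ j, om (f j) := by
    simp_rw [Finset.card_filter]
    rw [Finset.sum_comm]
    refine Finset.sum_le_sum fun j _ => ?_
    rw [← Finset.card_filter]
    calc ((Finset.Icc 1 T).filter fun t => t ≤ om (f j)).card ≤ (Finset.Icc 1 (om (f j))).card := by
          refine Finset.card_le_card fun t ht => ?_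
          rw [Finset.mem_filter, Finset.mem_Icc] at ht
          rw [Finset.mem_Icc]
          exact ⟨ht.1.1, ht.2⟩
      _ = om (f j) := by simp
  have h4 : 2 * ∑ t ∈ Finset.Icc 1 T, t = T * (T + 1) := by
    have : ∀ T : ℕ, 2 * ∑ t ∈ Finset.Icc 1 T, t = T * (T + 1) := by
      intro T
      induction T with
      | zero => simp
      | succ T ih =>
        rw [Finset.sum_Icc_succ_top (by omega), mul_add, ih]
        ring
    exact this T
  calc 2 * T * Fintype.card κ = 2 * (T * Fintype.card κ) := by ring
    _ ≤ 2 * (∑ t ∈ Finset.Icc 1 T, (Finset.univ.filter fun j : κ => t ≤ om (f j)).card +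
        N' * ∑ t ∈ Finset.Icc 1 T, t) := Nat.mul_le_mul_left _ h2
    _ ≤ 2 * (∑ j, om (f j) + N' * ∑ t ∈ Finset.Icc 1 T, t) :=
        Nat.mul_le_mul_left _ (Nat.add_le_add_right h3 _)
    _ = 2 * ∑ j, om (f j) + N' * (2 * ∑ t ∈ Finset.Icc 1 T, t) := by ring
    _ = _ := by rw [h4]

end Pool.Agent.H68.RD
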