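import Pool.Agent.H82.RD.Targets

/-!
# MP_7ecdd4_nt, triples of any height: module DXZ
-/

set_option autoImplicit false

namespace Pool.Agent.H68.RD

open Pool.Agent.H82.RD

private theorem chz (z J : ℕ) : z * z.choose J = J * z.choose J + (J + 1) * z.choose (J + 1) := by
  have h := Nat.choose_succ_right_eq z J
  rcases le_or_gt J z with hJ | hJ
  · obtain ⟨m, rfl⟩ := Nat.exists_eq_add_of_le hJ
    rw [mul_comm (J + 1), h, Nat.add_sub_cancel_left]
    ring
  · rw [Nat.choose_eq_zero_of_lt hJ, Nat.choose_eq_zero_of_lt (by omega)]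
    simp

theorem pf_DXZ : T_DXZ := by
  intro R _ ϖ E Jm K v y z d i φ hz hφ
  obtain ⟨C, hC, hφ⟩ := hφ
  refine ⟨fun c J => (J : R) * C c J + (if J = 0 then 0 else (J : R) * C c (J - 1)),
    fun c J => ?_, fun k => ?_⟩
  · refine dvd_add ?_ ?_
    · exact Dvd.dvd.mul_left ((pow_dvd_pow ϖ (by omega)).trans (hC c J)) _
    · split_ifs with hJ
      · exact dvd_zero _
      · exact Dvd.dvd.mul_left ((pow_dvd_pow ϖ (by omega)).trans (hC c (J - 1))) _
  · have key : ∀ c, ∑ J ∈ Finset.range Jm, ((J : R) * C c J +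
        (if J = 0 then 0 else (J : R) * C c (J - 1))) * ((z k).choose J : R) =
        (z k : R) * ∑ J ∈ Finset.range Jm, C c J * ((z k).choose J : R) := by
      intro c
      have h1 : ∑ J ∈ Finset.range Jm, (if J = 0 then 0 else (J : R) * C c (J - 1)) *
          ((z k).choose J : R) =
          ∑ J ∈ Finset.range Jm, ((J + 1 : ℕ) : R) * C c J * ((z k).choose (J + 1) : R) := by
        have hz' := hz k
        obtain ⟨m, rfl⟩ : ∃ m, Jm = m + 1 := ⟨Jm - 1, by omega⟩
        rw [Finset.sum_range_succ', Finset.sum_range_succ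
          (fun J => ((J + 1 : ℕ) : R) * C c J * ((z k).choose (J + 1) : R))]
        rw [Nat.choose_eq_zero_of_lt (show z k < m + 1 by omega)]
        simp
      simp_rw [add_mul]
      rw [Finset.sum_add_distrib, h1, ← Finset.sum_add_distrib, Finset.mul_sum]
      refine Finset.sum_congr rfl fun J _ => ?_
      have h2 : ((z k : ℕ) : R) * ((z k).choose J : R) = (J : R) * ((z k).choose J : R) +
          ((J + 1 : ℕ) : R) * ((z k).choose (J + 1) : R) := by
        have := congrArg (Nat.cast : ℕ → R) (chz (z k) J)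
        push_cast at this ⊢
        exact this
      calc (J : R) * C c J * ((z k).choose J : R) +
          ((J + 1 : ℕ) : R) * C c J * ((z k).choose (J + 1) : R) =
          C c J * ((J : R) * ((z k).choose J : R) +
          ((J + 1 : ℕ) : R) * ((z k).choose (J + 1) : R)) := by ring
        _ = (z k : R) * (C c J * ((z k).choose J : R)) := by rw [← h2]; ring
    have h2 : ∑ c ∈ Sx v d, ∑ J ∈ Finset.range Jm, ((J : R) * C c J +
        (if J = 0 then 0 else (J : R) * C c (J - 1))) *
        ((∏ j, y k j ^ c j) * ((z k).choose J : R)) =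
        (z k : R) * ∑ c ∈ Sx v d, ∑ J ∈ Finset.range Jm,
          C c J * ((∏ j, y k j ^ c j) * ((z k).choose J : R)) := by
      rw [Finset.mul_sum]
      refine Finset.sum_congr rfl fun c _ => ?_
      have h3 : ∀ f : ℕ → R, ∑ J ∈ Finset.range Jm, f J * ((∏ j, y k j ^ c j) *
          ((z k).choose J : R)) = (∏ j, y k j ^ c j) * ∑ J ∈ Finset.range Jm, f J *
            ((z k).choose J : R) := by
        intro f
        rw [Finset.mul_sum]
        exact Finset.sum_congr rfl fun J _ => by ring
      rw [h3, h3, key]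
      ring
    rw [h2]
    have h4 : (z k : R) * φ k - (z k : R) * ∑ c ∈ Sx v d, ∑ J ∈ Finset.range Jm,
          C c J * ((∏ j, y k j ^ c j) * ((z k).choose J : R)) = (z k : R) * (φ k -
          ∑ c ∈ Sx v d, ∑ J ∈ Finset.range Jm,
          C c J * ((∏ j, y k j ^ c j) * ((z k).choose J : R))) := by ring
    rw [h4]
    exact Dvd.dvd.mul_left (hφ k) _

end Pool.Agent.H68.RD
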