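import Pool.Agent.H82.RD.Targets
import Pool.Agent.H13.PS.LP2

/-! # TLP: the triples of `Two` of large height -/

set_option autoImplicit false

open Pool.Agent.H82.RD Pool.Agent.H38.RB Pool.Agent.H38.PS Pool.Agent.H13.PS

namespace Pool.Agent.H68.RD

theorem pf_TLP (hTLS : T_TLS) (hQR : T_QR) (hCOME : T_COME) : T_TLP := by
  intro ε δ c₀ hε hδ hc₀
  set γ : ℝ := ε / 4 with hγdef
  have hγ : 0 < γ := by positivity
  obtain ⟨X₀, hX₀, hfam⟩ := hTLS γ δ c₀ hγ hδ hc₀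
  obtain ⟨C0, hC0, hQ0⟩ := hQR 0 one_pos
  obtain ⟨C1, hC1, hQ1⟩ := hQR (1 - δ) (by linarith)
  obtain ⟨Cc, hCc, hcom⟩ := hCOME C1 γ hC1 hγ
  set N₀ : ℕ := (⋃ t ∈ Pool.Agent.H38.RB.sq X₀, Sol 0 t.primeFactors).ncard with hN₀
  set C : ℝ := N₀ + C1 ^ 2 * Cc + 1 with hC
  have hC0' : 0 ≤ C1 ^ 2 * Cc := by positivity
  refine ⟨C, by positivity, ?_⟩
  intro X Y hX hY
  have hX0 : 0 < X := by linarith
  have hXε : 1 ≤ X ^ ε := Real.one_le_rpow (by linarith) hε.le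
  have hprime : ∀ t : ℕ, ∀ p ∈ t.primeFactors, p.Prime :=
    fun t p hp => Nat.prime_of_mem_primeFactors hp
  have hYε : 1 ≤ Y * X ^ ε := one_le_mul_of_one_le_of_one_le hY hXε
  by_cases hXX : X < X₀
  · -- small `X`
    obtain ⟨hU, -⟩ := union_card (Pool.Agent.H38.RB.sq X₀) (fun t => Sol 0 t.primeFactors)
      (fun t => C0 ^ (t.primeFactors.card + 1)) fun t _ => hQ0 _ (hprime t)
    have hsub : {x | x ∈ Two X Y δ ∧ X ^ c₀ ≤ Real.log (ht x)} ⊆
        ⋃ t ∈ Pool.Agent.H38.RB.sq X₀, Sol 0 t.primeFactors := by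
      rintro x ⟨⟨hx, hxX, -⟩, -⟩
      rw [Set.mem_iUnion₂]
      refine ⟨pd (pr x).primeFactors, mem_sq (hprime _) (hxX.trans hXX.le), ?_⟩
      rw [pf_pd (hprime _)]
      exact mem_sol hx
    refine ⟨hU.subset hsub, ?_⟩
    have h1 : (({x | x ∈ Two X Y δ ∧ X ^ c₀ ≤ Real.log (ht x)}.ncard : ℕ) : ℝ) ≤ N₀ := by
      exact_mod_cast Set.ncard_le_ncard hsub hU
    have h2 : (N₀ : ℝ) ≤ C := by
      rw [hC]
      linarith
    have h3 : C ≤ C * (Y * X ^ ε) :=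
      le_mul_of_one_le_right ((Nat.cast_nonneg _).trans h2) hYε
    calc _ ≤ C * (Y * X ^ ε) := h1.trans (h2.trans h3)
      _ = _ := by ring
  · -- large `X`
    rw [not_lt] at hXX
    set Y' : ℝ := min Y X with hY'
    have hY'1 : 1 ≤ Y' := le_min hY (by linarith)
    obtain ⟨hU, hUc⟩ := union_card (Pool.Agent.H38.RB.sq Y')
      (fun s => ⋃ p ∈ famU X δ c₀ s.primeFactors, Sol (1 - δ) (insert p s.primeFactors))
      (fun s => X ^ γ * C1 ^ (s.primeFactors.card + 2)) (by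
        intro s hs
        unfold Pool.Agent.H38.RB.sq at hs
        rw [Finset.mem_filter, Finset.mem_Icc] at hs
        have hsX : (s : ℝ) ≤ X := ((Nat.le_floor_iff' (by have := hs.1.1; omega)).1 hs.1.2).trans
          (min_le_right _ _)
        refine set_bound hQ1 hC1 (hprime s) (fun p hp => ⟨hp.1, hp.2.1⟩)
          (hfam X s.primeFactors hXX (hprime s) ?_)
        have h3 : pd s.primeFactors ≤ s :=
          Nat.le_of_dvd (by have := hs.1.1; omega) (Nat.prod_primeFactors_dvd s)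
        have h4 : ((pd s.primeFactors : ℕ) : ℝ) ≤ s := by exact_mod_cast h3
        linarith)
    have hsub : {x | x ∈ Two X Y δ ∧ X ^ c₀ ≤ Real.log (ht x)} ⊆
        ⋃ s ∈ Pool.Agent.H38.RB.sq Y', ⋃ p ∈ famU X δ c₀ s.primeFactors,
          Sol (1 - δ) (insert p s.primeFactors) := by
      rintro x ⟨hxT, hxh⟩
      have hx : Adm x := hxT.1
      have hxX := hxT.2.1
      obtain ⟨a, b, c, p, S, hab, hac, hbc, hpp, hpS, hSp, hsY, hsX, hpX, hpb, hcS, hbS, haS,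
        hsol⟩ := two_data hxT
      have hpf : (pd S).primeFactors = S := pf_pd hSp
      rw [Set.mem_iUnion₂]
      refine ⟨pd S, mem_sq hSp (le_min hsY hsX), ?_⟩
      rw [hpf, Set.mem_iUnion₂]
      exact ⟨p, ⟨hpp, hpS, hpX, x, a, b, c, hx, hxX, hab, hac, hbc, hcS, hbS,
        Nat.dvd_of_mem_primeFactors hpb, haS, hxh⟩, hsol⟩
    refine ⟨hU.subset hsub, ?_⟩
    have h1 : (({x | x ∈ Two X Y δ ∧ X ^ c₀ ≤ Real.log (ht x)}.ncard : ℕ) : ℝ) ≤
        ((⋃ s ∈ Pool.Agent.H38.RB.sq Y', ⋃ p ∈ famU X δ c₀ s.primeFactors,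
          Sol (1 - δ) (insert p s.primeFactors)).ncard : ℝ) := by
      exact_mod_cast Set.ncard_le_ncard hsub hU
    have hsum : ∑ s ∈ Pool.Agent.H38.RB.sq Y', X ^ γ * C1 ^ (s.primeFactors.card + 2) =
        X ^ γ * C1 ^ 2 * ∑ s ∈ Pool.Agent.H38.RB.sq Y', C1 ^ s.primeFactors.card := by
      rw [Finset.mul_sum]
      refine Finset.sum_congr rfl fun s _ => ?_
      ring
    have hYc : Y' ^ (1 + γ) ≤ Y * X ^ γ := by
      rw [Real.rpow_add (by linarith), Real.rpow_one]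
      exact mul_le_mul (min_le_left _ _) (Real.rpow_le_rpow (by linarith) (min_le_right _ _) hγ.le)
        (by positivity) (by linarith)
    have hXγ : X ^ γ * X ^ γ ≤ X ^ ε := by
      rw [← Real.rpow_add hX0]
      exact Real.rpow_le_rpow_of_exponent_le (by linarith) (by rw [hγdef]; linarith)
    have hXγ0 : 0 < X ^ γ := Real.rpow_pos_of_pos hX0 _
    have hs2 := hcom Y' (by linarith)
    have h8 : ∑ s ∈ Pool.Agent.H38.RB.sq Y', C1 ^ s.primeFactors.card ≤ Cc * (Y * X ^ γ) :=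
      hs2.trans (mul_le_mul_of_nonneg_left hYc hCc.le)
    have h9 : C1 ^ 2 * Cc ≤ C := by
      rw [hC]
      have := (Nat.cast_nonneg N₀ : (0 : ℝ) ≤ N₀)
      linarith
    calc _ ≤ _ := h1
      _ ≤ _ := hUc
      _ = _ := hsum
      _ ≤ X ^ γ * C1 ^ 2 * (Cc * (Y * X ^ γ)) := mul_le_mul_of_nonneg_left h8 (by positivity)
      _ = C1 ^ 2 * Cc * Y * (X ^ γ * X ^ γ) := by ring
      _ ≤ C1 ^ 2 * Cc * Y * X ^ ε := mul_le_mul_of_nonneg_left hXγ (by positivity)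
      _ ≤ C * Y * X ^ ε := by
          refine mul_le_mul_of_nonneg_right (mul_le_mul_of_nonneg_right h9 (by linarith))
            (by positivity)

end Pool.Agent.H68.RD
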